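import Pool.Agent.X284.PZ.Hull
import Pool.Agent.X284.PZ.Corner
import Pool.Agent.X284.PZ.Count

/-!
# MP_4467b5_nt: the density hypothesis for enclosed zeros and for corners

We show unconditionally that two classes of zeros of zeta satisfy the density hypothesis: for all `ε`
the number of these zeros of height at most `T` with real part at least `σ` is
`O(T ^ (2 (1 - σ) + ε))`, uniformly in `1/2 ≤ σ ≤ 1`.

(1) Enclosed zeros: a path of length at most `L` in the half plane `Re s ≥ σ`, which ends on the line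
`Re s = 1` and within distance `δ` of which there are few zeros (at most `η log T`), passes through
the zero or separates it from infinity. There can be any number of zeros inside of the loop. So the
density hypothesis can only fail through clusters of zeros that cannot be separated from the half plane
`Re s < σ` by such a path.

(2) Corners: all zeros within distance `R` of the zero, with at most `η log T` exceptions, lie in a cone
with opening smaller than `π` (and given by `λ`) whose apex is the zero moved by `η`, and a path with few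
zeros near it joins the middle of the complementary cone to the line `Re s = 1`. There can be any
number of zeros in the cone, also as close to the zero as we like. So a cluster of zeros through which
the density hypothesis fails has no convex corners.

Proof. Few zeros near a path imply that zeta is at most `T ^ a` near the path, with `a` as small as we
like. If also the mollifier `M` of length `T ^ κ` is at most `T ^ a` near the path, then `ζ M - 1`, which
is tiny near the line `Re s = 1`, is tiny along the whole path, and by the maximum principle also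
inside of the loop, which is absurd at a zero of zeta. At a corner `ρ` the wedge outside of the cone has
an opening larger than `π`. So in the wedge the logarithm of `|ζ M - 1|` is at most
`- c |s - ρ| ^ p log T` with `p < 1`, and in the cone the logarithm of `|ζ|` is at most
`C |s - ρ| log T`, up to small terms; as `p < 1`, the product of the values of `ζ M - 1` at opposite
points of a small circle about `ρ` is smaller than one, which is again absurd. So `M` is large near these
zeros, and the mean value theorem for the powers of the dyadic pieces of `M` bounds the number of the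
unit intervals where this happens.

The large values estimate, Jensen's inequality and the number of zeros in unit intervals are taken from
`Pool.Agent.H31R2.DH` and `Pool.Agent.H370R2`, the growth of zeta from `Pool.Agent.H388LH`.
-/

set_option autoImplicit false

open Complex Metric MeasureTheory Set Filter Topology

namespace Pool.Agent.Results.MP_4467b5_nt.EnclosedZerosAndCorners

/-- the number of the elements of a set `A` of zeros of zeta, counted with multiplicity -/
noncomputable def count (A : Set ℂ) : ℕ := ∑ᶠ s ∈ A, analyticOrderNatAt riemannZeta s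

/-- the zeros of zeta with real part at least `σ` and ordinate in `(0, T]` -/
def zeros (σ T : ℝ) : Set ℂ := {s : ℂ | riemannZeta s = 0 ∧ σ ≤ s.re ∧ 0 < s.im ∧ s.im ≤ T}

/-- the zeros of zeta within distance `δ` of the path `p : [0, 1] → ℂ` -/
def corridor (δ : ℝ) (p : ℝ → ℂ) : Set ℂ :=
  {s : ℂ | riemannZeta s = 0 ∧ ∃ x ∈ Icc (0 : ℝ) 1, ‖s - p x‖ ≤ δ}

/-- a path in the half plane `Re s ≥ σ` that ends on the right of the line `Re s = 1`, is Lipschitz with
constant `L` (hence of length at most `L`) and has at most `M` zeros of zeta, counted with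
multiplicity, within distance `δ` -/
def QuietPath (σ δ L M : ℝ) (p : ℝ → ℂ) : Prop :=
  1 ≤ (p 1).re ∧ (∀ x ∈ Icc (0 : ℝ) 1, σ ≤ (p x).re) ∧
    (∀ x ∈ Icc (0 : ℝ) 1, ∀ y ∈ Icc (0 : ℝ) 1, ‖p x - p y‖ ≤ L * |x - y|) ∧
    (count (corridor δ p) : ℝ) ≤ M

/-- the path `p : [0, 1] → ℂ` passes through `ρ`, or `ρ` lies in a bounded component of the complement
of the path -/
def Surrounds (p : ℝ → ℂ) (ρ : ℂ) : Prop :=
  ρ ∈ p '' Icc (0 : ℝ) 1 ∨ Bornology.IsBounded (connectedComponentIn (p '' Icc (0 : ℝ) 1)ᶜ ρ)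

/-- `ρ` is surrounded by a quiet path -/
def Enclosed (σ δ L M : ℝ) (ρ : ℂ) : Prop := ∃ p : ℝ → ℂ, Surrounds p ρ ∧ QuietPath σ δ L M p

/-- the zeros of zeta within distance `R` of `ρ` that do not lie in the cone with apex `ρ + η e` that
consists of the points `s` with `Re w ≤ η - λ |Im w|`, `w = (s - ρ) conj e` (so `s = ρ + w e` for a unit
vector `e`) -/
def outsideCone (R lam η : ℝ) (e ρ : ℂ) : Set ℂ :=
  {s : ℂ | riemannZeta s = 0 ∧ ‖s - ρ‖ ≤ R ∧
    η - lam * |((s - ρ) * (starRingEnd ℂ) e).im| < ((s - ρ) * (starRingEnd ℂ) e).re}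

/-- `ρ` is a corner: for a unit vector `e` with `Re e ≥ 0` all zeros within distance `R` of `ρ`, but
for at most `M` (counted with multiplicity), lie in the cone, and a quiet path starts at
`ρ + (R / 2) e` -/
def Corner (σ δ L R lam η M : ℝ) (ρ : ℂ) : Prop :=
  ∃ e : ℂ, ‖e‖ = 1 ∧ 0 ≤ e.re ∧ (count (outsideCone R lam η e ρ) : ℝ) ≤ M ∧
    ∃ p : ℝ → ℂ, p 0 = ρ + e * ((R / 2 : ℝ) : ℂ) ∧ QuietPath σ δ L M p

/-- the sets of zeros that are counted are finite -/
theorem zeros_finite (σ T : ℝ) : (zeros σ T).Finite := DH31.zeros_finite σ T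

/-- the sets of zeros that are counted are finite -/
theorem corridor_finite {δ L : ℝ} {p : ℝ → ℂ} (hL : 0 ≤ L)
    (hp : ∀ x ∈ Icc (0 : ℝ) 1, ∀ y ∈ Icc (0 : ℝ) 1, ‖p x - p y‖ ≤ L * |x - y|) :
    (corridor δ p).Finite := by
  refine (DH31.finite_zeros_compact (isCompact_closedBall (p 0) (L + δ))).subset ?_
  rintro s ⟨h1, x, hx, h2⟩
  refine ⟨?_, h1⟩
  rw [mem_closedBall, dist_eq_norm]
  have h3 := hp x hx 0 ⟨le_rfl, zero_le_one⟩
  have h4 : |x - 0| ≤ 1 := by
    rw [sub_zero, abs_le]; constructor <;> linarith [hx.1, hx.2]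
  calc ‖s - p 0‖ = ‖(s - p x) + (p x - p 0)‖ := by congr 1; ring
    _ ≤ ‖s - p x‖ + ‖p x - p 0‖ := norm_add_le _ _
    _ ≤ δ + L * |x - 0| := add_le_add h2 h3
    _ ≤ L + δ := by nlinarith

/-- the sets of zeros that are counted are finite -/
theorem outsideCone_finite (R lam η : ℝ) (e ρ : ℂ) : (outsideCone R lam η e ρ).Finite := by
  refine (DH31.finite_zeros_compact (isCompact_closedBall ρ R)).subset ?_
  rintro s ⟨h1, h2, h3⟩
  refine ⟨?_, h1⟩
  rw [mem_closedBall, dist_eq_norm]
  exact h2

/-- The density hypothesis for enclosed zeros and for corners. -/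
theorem result :
    (∀ ε δ L : ℝ, 0 < ε → 0 < δ → 0 ≤ L →
      ∃ η : ℝ, 0 < η ∧ ∃ C : ℝ, 0 < C ∧ ∃ T₀ : ℝ, ∀ T : ℝ, T₀ ≤ T → ∀ σ : ℝ, 1 / 2 ≤ σ → σ ≤ 1 →
        (count {ρ : ℂ | ρ ∈ zeros σ T ∧ Enclosed σ δ L (η * Real.log T) ρ} : ℝ) ≤
          C * T ^ (2 * (1 - σ) + ε)) ∧
    (∀ ε δ L R lam : ℝ, 0 < ε → 0 < δ → 0 ≤ L → 0 < R → 0 < lam →
      ∃ η : ℝ, 0 < η ∧ ∃ C : ℝ, 0 < C ∧ ∃ T₀ : ℝ, ∀ T : ℝ, T₀ ≤ T → ∀ σ : ℝ, 1 / 2 ≤ σ → σ ≤ 1 →
        (count {ρ : ℂ | ρ ∈ zeros σ T ∧ Corner σ δ L R lam η (η * Real.log T) ρ} : ℝ) ≤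
          C * T ^ (2 * (1 - σ) + ε)) := by
  classical
  constructor
  · intro ε δ L hε hδ hL
    set r : ℝ := min (δ / 5) (min (1 / 28) (ε / 8)) with hr
    have hr0 : 0 < r := lt_min (by positivity) (lt_min (by norm_num) (by positivity))
    have hrδ : 5 * r ≤ δ := by
      have : r ≤ δ / 5 := min_le_left _ _
      linarith
    have hr28 : r ≤ 1 / 28 := (min_le_right _ _).trans (min_le_left _ _)
    have hrε : r ≤ ε / 8 := (min_le_right _ _).trans (min_le_right _ _)
    set κ : ℝ := min 1 (ε / 18) with hκ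
    have hκ0 : 0 < κ := lt_min one_pos (by positivity)
    have hκ1 : κ ≤ 1 := min_le_left _ _
    have hκε : κ ≤ ε / 18 := min_le_right _ _
    obtain ⟨η, hη, η₂, hη₂, T1, hbad⟩ := Pool.Agent.X284.PZ.enclosed_bad hr0 hr28 hL hκ0 hκ1
    obtain ⟨C, hC, T2, hcount⟩ := Pool.Agent.X284.PZ.count_bound hκ0 hκ1 hη₂ hL
    refine ⟨η, hη, C, hC, max (max T1 T2) 1, ?_⟩
    intro T hT σ hσ hσ1
    have hT1 : T1 ≤ T := (le_max_left _ _).trans ((le_max_left _ _).trans hT)
    have hT2 : T2 ≤ T := (le_max_right _ _).trans ((le_max_left _ _).trans hT)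
    have hT3 : 1 ≤ T := (le_max_right _ _).trans hT
    have h := hcount T hT2 σ hσ hσ1 (2 * r) (by linarith) (by linarith)
      {ρ : ℂ | ρ ∈ zeros σ T ∧ Enclosed σ δ L (η * Real.log T) ρ} (fun ρ hρ => hρ.1) (by
        rintro w ⟨⟨w1, w2, w3, w4⟩, p, p0, p1, p2, p3, p4⟩ hw
        have hfin := corridor_finite (δ := δ) hL p3
        refine hbad T hT1 σ hσ hσ1 p w w1 hw w4 p1 p0 p2 p3 (fun S' hS' => ?_)
        have h5 := DH31.sum_le_cnt hfin S' (fun z hz => by
          obtain ⟨⟨x, hx, h6⟩, h7⟩ := hS' z hz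
          exact ⟨h7, x, hx, h6.trans hrδ⟩)
        have h6 : ((∑ z ∈ S', analyticOrderNatAt riemannZeta z : ℕ) : ℝ) ≤
            (count (corridor δ p) : ℝ) := by exact_mod_cast h5
        rw [Nat.cast_sum] at h6
        exact h6.trans p4)
    refine h.trans (mul_le_mul_of_nonneg_left ?_ hC.le)
    exact Real.rpow_le_rpow_of_exponent_le hT3 (by linarith)
  · intro ε δ L R lam hε hδ hL hR hlam
    set R1 : ℝ := min (R / 4) (min (1 / 4) (ε / 8)) with hR1
    have hR10 : 0 < R1 := lt_min (by positivity) (lt_min (by norm_num) (by positivity))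
    have hR1R : 4 * R1 ≤ R := by
      have : R1 ≤ R / 4 := min_le_left _ _
      linarith
    have hR14 : R1 ≤ 1 / 4 := (min_le_right _ _).trans (min_le_left _ _)
    have hR1ε : R1 ≤ ε / 8 := (min_le_right _ _).trans (min_le_right _ _)
    set κ : ℝ := min 1 (ε / 18) with hκ
    have hκ0 : 0 < κ := lt_min one_pos (by positivity)
    have hκ1 : κ ≤ 1 := min_le_left _ _
    have hκε : κ ≤ ε / 18 := min_le_right _ _
    obtain ⟨η, hη, η₂, hη₂, T1, hbad⟩ :=
      Pool.Agent.X284.PZ.corner_bad hlam hR10 hR14 hR1R hδ hL hκ0 hκ1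
    obtain ⟨C, hC, T2, hcount⟩ :=
      Pool.Agent.X284.PZ.count_bound (L := 2 * (R + L)) hκ0 hκ1 hη₂ (by positivity)
    obtain ⟨C', hC', T3, htriv⟩ := Pool.Agent.X284.PZ.count_trivial (ε := ε / 2) (by positivity)
    refine ⟨η, hη, max C C', lt_max_of_lt_left hC, max (max T1 T2) (max T3 1), ?_⟩
    intro T hT σ hσ hσ1
    have hT1 : T1 ≤ T := (le_max_left _ _).trans ((le_max_left _ _).trans hT)
    have hT2 : T2 ≤ T := (le_max_right _ _).trans ((le_max_left _ _).trans hT)
    have hT3 : T3 ≤ T := (le_max_left _ _).trans ((le_max_right _ _).trans hT)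
    have hT4 : 1 ≤ T := (le_max_right _ _).trans ((le_max_right _ _).trans hT)
    have hTpos : 0 < T := by linarith
    rcases le_total (1 / 2 + R1) σ with hs | hs
    · have h := hcount T hT2 σ hσ hσ1 (2 * R1) (by linarith) (by linarith)
        {ρ : ℂ | ρ ∈ zeros σ T ∧ Corner σ δ L R lam η (η * Real.log T) ρ} (fun ρ hρ => hρ.1) (by
          rintro w ⟨⟨w1, w2, w3, w4⟩, e, he1, he0, hcone, p, p0, p1, p2, p3, p4⟩ hw
          have hfin := outsideCone_finite R lam η e w
          have hfin2 := corridor_finite (δ := δ) hL p3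
          exact hbad T hT1 σ hs hσ1 w e p w1 w2 hw w4 he1 he0 (fun S' hS' => by
            have h5 := DH31.sum_le_cnt hfin S' (fun z hz => by
              obtain ⟨⟨h6, h7⟩, h8⟩ := hS' z hz
              exact ⟨h8, h6, h7⟩)
            have h6 : ((∑ z ∈ S', analyticOrderNatAt riemannZeta z : ℕ) : ℝ) ≤
                (count (outsideCone R lam η e w) : ℝ) := by exact_mod_cast h5
            rw [Nat.cast_sum] at h6
            exact h6.trans hcone) p0 p1 p2 p3 (fun S' hS' => by
            have h5 := DH31.sum_le_cnt hfin2 S' (fun z hz => by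
              obtain ⟨h6, h7⟩ := hS' z hz
              exact ⟨h7, h6⟩)
            have h6 : ((∑ z ∈ S', analyticOrderNatAt riemannZeta z : ℕ) : ℝ) ≤
                (count (corridor δ p) : ℝ) := by exact_mod_cast h5
            rw [Nat.cast_sum] at h6
            exact h6.trans p4))
      refine h.trans (mul_le_mul (le_max_left _ _) ?_ (by positivity)
        (hC.le.trans (le_max_left _ _)))
      exact Real.rpow_le_rpow_of_exponent_le hT4 (by linarith)
    · have h := htriv T hT3 {ρ : ℂ | ρ ∈ zeros σ T ∧ Corner σ δ L R lam η (η * Real.log T) ρ} (by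
        rintro ρ ⟨⟨a1, a2, a3, a4⟩, -⟩
        exact ⟨a1, hσ.trans a2, a3, a4⟩)
      refine (show (count _ : ℝ) ≤ C' * T ^ (1 + ε / 2) from h).trans
        (mul_le_mul (le_max_right _ _) ?_ (by positivity) (hC.le.trans (le_max_left _ _)))
      exact Real.rpow_le_rpow_of_exponent_le hT4 (by linarith)

end Pool.Agent.Results.MP_4467b5_nt.EnclosedZerosAndCorners
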