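import Pool.Agent.H31R2.DH.Assemble
import Pool.Agent.X108.ZE.FN

/-!
# The additive energy of the zeros of zeta and the density hypothesis

Let `W` be the set of the (rounded) heights of a set of zeros with real part at least `σ` and height at
most `T`. We bound the additive energy of `W`, and deduce the density hypothesis for every set of zeros
whose heights have large additive energy.
-/

set_option autoImplicit false

namespace Pool.Agent.Results.MP_4467b5_nt.EnergyOfZeros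

open Complex Pool.Agent.X108.ZE

/-- the zeros of zeta with real part at least `σ` and height in `(0, T]` -/
def Zeros (σ T : ℝ) : Set ℂ := {s : ℂ | riemannZeta s = 0 ∧ σ ≤ s.re ∧ 0 < s.im ∧ s.im ≤ T}

/-- the number of the elements of a set of zeros, counted with multiplicity -/
noncomputable def count (A : Set ℂ) : ℕ := ∑ᶠ s ∈ A, analyticOrderNatAt riemannZeta s

/-- the heights of the elements of `A`, rounded: the integers `n` such that an element of `A` has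
imaginary part in `(n, n + 1]` -/
def heights (A : Set ℂ) : Set ℤ := {n : ℤ | ∃ s ∈ A, (n : ℝ) < s.im ∧ s.im ≤ n + 1}

/-- the sets of zeros that are counted are finite -/
theorem zeros_finite (σ T : ℝ) : (Zeros σ T).Finite := DH31.zeros_finite σ T

lemma conclude {s T σ K C e : ℝ} (hT : 1 ≤ T) (hs : 0 ≤ s) (hs2 : s ≤ 2 * T) (hK : 1 ≤ K)
    (hC : 1 ≤ C) (he : 0 ≤ e) (hσ : σ ≤ 1) (h : s ^ 3 ≤ K * (C * T ^ e * (s * Rz s T σ))) :
    s ≤ 2 * (3 * (K * C)) ^ 2 * T ^ (2 * (1 - σ) + 2 * e) := by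
  have hT0 : 0 < T := by linarith
  rcases hs.eq_or_lt with h0 | h0
  · rw [← h0]; positivity
  obtain ⟨Z, hZ⟩ : ∃ Z : ℝ, Z = 3 * (K * C) := ⟨_, rfl⟩
  have hKC : 1 ≤ K * C := by nlinarith
  have hZ1 : 1 ≤ Z := by rw [hZ]; linarith
  have hTe : 1 ≤ T ^ e := Real.one_le_rpow hT he
  have h1 : 3 * s ^ 2 ≤ Z * T ^ e * Rz s T σ := by
    have h2 : s * (3 * s ^ 2) ≤ s * (Z * T ^ e * Rz s T σ) := by
      rw [hZ]; nlinarith
    exact le_of_mul_le_mul_left h2 h0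
  rw [← hZ]
  have hexp : (T ^ e) ^ 2 = T ^ (2 * e) := by
    rw [← Real.rpow_natCast, ← Real.rpow_mul hT0.le]; congr 1; push_cast; ring
  have hpow : T ^ (2 * (1 - σ) + 2 * e) = T ^ (2 * (1 - σ)) * (T ^ e) ^ 2 := by
    rw [hexp, Real.rpow_add hT0]
  by_cases ha : s ^ 2 ≤ Z * T ^ e * (s ^ 2 * T ^ (1 / 2 - σ))
  · have h3 : 1 ≤ Z * T ^ e * T ^ (1 / 2 - σ) := by
      have : s ^ 2 * 1 ≤ s ^ 2 * (Z * T ^ e * T ^ (1 / 2 - σ)) := by nlinarith
      exact le_of_mul_le_mul_left this (by positivity)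
    have h4 : 1 ≤ (Z * T ^ e * T ^ (1 / 2 - σ)) ^ 2 := one_le_pow₀ h3
    have h5 : T * (T ^ (1 / 2 - σ)) ^ 2 = T ^ (2 * (1 - σ)) := by
      rw [← Real.rpow_natCast, ← Real.rpow_mul hT0.le]
      nth_rewrite 1 [← Real.rpow_one T]
      rw [← Real.rpow_add hT0]; congr 1; push_cast; ring
    calc s ≤ 2 * T * 1 := by linarith
      _ ≤ 2 * T * (Z * T ^ e * T ^ (1 / 2 - σ)) ^ 2 := by gcongr
      _ = 2 * Z ^ 2 * ((T * (T ^ (1 / 2 - σ)) ^ 2) * (T ^ e) ^ 2) := by ring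
      _ = _ := by rw [h5, hpow]
  by_cases hb : s ^ 2 ≤ Z * T ^ e * (s * T ^ (2 * (1 - σ)))
  · have h3 : s ≤ Z * T ^ e * T ^ (2 * (1 - σ)) := by
      have : s * s ≤ s * (Z * T ^ e * T ^ (2 * (1 - σ))) := by nlinarith
      exact le_of_mul_le_mul_left this h0
    refine h3.trans ?_
    rw [hpow]
    have g1 : Z ≤ 2 * Z ^ 2 := by nlinarith
    have g2 : T ^ e ≤ (T ^ e) ^ 2 := by nlinarith
    calc Z * T ^ e * T ^ (2 * (1 - σ)) ≤ (2 * Z ^ 2) * (T ^ e) ^ 2 * T ^ (2 * (1 - σ)) := by gcongr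
      _ = _ := by ring
  · have hc : s ^ 2 ≤ Z * T ^ e * (s ^ (5 / 4 : ℝ) * T ^ (1 - σ)) := by
      push Not at ha hb
      unfold Rz at h1
      nlinarith
    have h3 : s ^ (3 / 4 : ℝ) ≤ Z * T ^ e * T ^ (1 - σ) := by
      have e1 : s ^ (5 / 4 : ℝ) * s ^ (3 / 4 : ℝ) = s ^ 2 := by
        rw [← Real.rpow_add h0, ← Real.rpow_two]; norm_num
      have : s ^ (5 / 4 : ℝ) * s ^ (3 / 4 : ℝ) ≤ s ^ (5 / 4 : ℝ) * (Z * T ^ e * T ^ (1 - σ)) := by
        rw [e1]; linarith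
      exact le_of_mul_le_mul_left this (Real.rpow_pos_of_pos h0 _)
    have h4 : 1 ≤ Z * T ^ e * T ^ (1 - σ) := by
      have g1 : 1 ≤ T ^ (1 - σ) := Real.one_le_rpow hT (by linarith)
      have g2 : 1 ≤ Z * T ^ e := by nlinarith
      nlinarith
    have h5 : s ≤ (Z * T ^ e * T ^ (1 - σ)) ^ 2 := by
      calc s = (s ^ (3 / 4 : ℝ)) ^ (4 / 3 : ℝ) := by
            rw [← Real.rpow_mul hs]; norm_num
        _ ≤ (Z * T ^ e * T ^ (1 - σ)) ^ (4 / 3 : ℝ) := by gcongr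
        _ ≤ (Z * T ^ e * T ^ (1 - σ)) ^ (2 : ℝ) :=
            Real.rpow_le_rpow_of_exponent_le h4 (by norm_num)
        _ = _ := Real.rpow_two _
    have h6 : (T ^ (1 - σ)) ^ 2 = T ^ (2 * (1 - σ)) := by
      rw [← Real.rpow_natCast, ← Real.rpow_mul hT0.le]; congr 1; push_cast; ring
    rw [hpow, ← h6]
    have g3 : 0 ≤ Z ^ 2 * ((T ^ (1 - σ)) ^ 2 * (T ^ e) ^ 2) := by positivity
    calc s ≤ (Z * T ^ e * T ^ (1 - σ)) ^ 2 := h5
      _ = 1 * (Z ^ 2 * ((T ^ (1 - σ)) ^ 2 * (T ^ e) ^ 2)) := by ring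
      _ ≤ 2 * (Z ^ 2 * ((T ^ (1 - σ)) ^ 2 * (T ^ e) ^ 2)) := by gcongr; norm_num
      _ = _ := by ring

lemma to_count : ∃ C : ℝ, 1 ≤ C ∧ ∀ T : ℝ, 3 ≤ T → ∀ σ : ℝ, 1 / 2 ≤ σ → ∀ A : Set ℂ,
    A ⊆ Zeros σ T → ∀ W : Finset ℤ, heights A ⊆ (W : Set ℤ) →
    (count A : ℝ) ≤ C + (W.card : ℝ) * (C * Real.log T) := by
  classical
  obtain ⟨C, hC, h⟩ := DH31.windows_to_count
  refine ⟨C + 1, by linarith, ?_⟩
  intro T hT σ hσ A hA W hW
  have h1 := h T hT A (fun s hs => by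
    obtain ⟨a1, a2, a3, a4⟩ := hA hs
    exact ⟨a1, hσ.trans a2, a3, a4⟩) (W.image Int.toNat) (by
    intro ρ hρ h3
    obtain ⟨a1, a2, a3, a4⟩ := hA hρ
    obtain ⟨n, hn⟩ : ∃ n : ℤ, n = ⌈ρ.im⌉ - 1 := ⟨_, rfl⟩
    have hn1 : (n : ℝ) < ρ.im := by
      rw [hn]
      have := Int.ceil_lt_add_one ρ.im
      push_cast
      linarith
    have hn2 : ρ.im ≤ n + 1 := by
      rw [hn]
      have := Int.le_ceil ρ.im
      push_cast
      linarith
    have hn0 : 0 ≤ n := by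
      have : (-1 : ℝ) < (n : ℝ) := by linarith
      have : (-1 : ℤ) < n := by exact_mod_cast this
      omega
    refine ⟨n.toNat, Finset.mem_image_of_mem _ (hW ⟨ρ, hρ, hn1, hn2⟩), ?_⟩
    have hcast : ((n.toNat : ℕ) : ℝ) = (n : ℝ) := by
      have : ((n.toNat : ℕ) : ℤ) = n := Int.toNat_of_nonneg hn0
      exact_mod_cast this
    rw [hcast]
    exact ⟨hn1, hn2⟩)
  have hlog : 0 ≤ Real.log T := Real.log_nonneg (by linarith)
  have h2 : (((W.image Int.toNat).card : ℕ) : ℝ) ≤ W.card := by exact_mod_cast Finset.card_image_le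
  have h3 : (count A : ℝ) = (DH31.cnt A : ℝ) := rfl
  rw [h3]
  calc (DH31.cnt A : ℝ) ≤ C + ((W.image Int.toNat).card : ℝ) * (C * Real.log T) := h1
    _ ≤ (C + 1) + (W.card : ℝ) * ((C + 1) * Real.log T) := by
        gcongr
        · linarith
        · linarith

/-- **The additive energy of the heights of the zeros, and the density hypothesis for the sets of zeros
whose heights have large additive energy.** -/
theorem result (ε : ℝ) (hε : 0 < ε) : ∃ C : ℝ, ∀ T : ℝ, 3 ≤ T → ∀ σ : ℝ, 1 / 2 ≤ σ → σ ≤ 1 →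
    ∀ (A : Set ℂ) (W : Finset ℤ), A ⊆ Zeros σ T → (W : Set ℤ) = heights A →
      ((W.addEnergy W : ℕ) : ℝ) ≤ C * T ^ ε * ((W.card : ℝ) ^ 3 * T ^ (1 / 2 - σ) +
        (W.card : ℝ) ^ 2 * T ^ (2 * (1 - σ)) + (W.card : ℝ) ^ (9 / 4 : ℝ) * T ^ (1 - σ)) ∧
      ∀ K : ℝ, 1 ≤ K → (W.card : ℝ) ^ 3 ≤ K * (W.addEnergy W : ℕ) →
        (count A : ℝ) ≤ C * K ^ 2 * T ^ (2 * (1 - σ) + ε) := by
  obtain ⟨C1, hC1, h1⟩ := energy_zeros (ε := ε / 3) (by positivity)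
  obtain ⟨C2, hC2, h2⟩ := to_count
  obtain ⟨C3, hC3, h3⟩ : ∃ C3 : ℝ, 1 ≤ C3 ∧ ∀ T : ℝ, 1 ≤ T → Real.log T ≤ C3 * T ^ (ε / 3) := by
    refine ⟨3 / ε + 1, by
      have : 0 < 3 / ε := by positivity
      linarith, fun T hT => ?_⟩
    have := Real.log_le_rpow_div (by linarith : 0 ≤ T) (show 0 < ε / 3 by positivity)
    have h0 : 0 ≤ T ^ (ε / 3) := by positivity
    calc Real.log T ≤ T ^ (ε / 3) / (ε / 3) := this
      _ = 3 / ε * T ^ (ε / 3) := by field_simp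
      _ ≤ _ := by gcongr; linarith
  refine ⟨C1 + C2 + C2 * C3 * (2 * (3 * C1) ^ 2), ?_⟩
  intro T hT σ hσ1 hσ2 A W hA hW
  have hT1 : 1 ≤ T := by linarith
  have hT0 : 0 < T := by linarith
  have hWprop : ∀ n ∈ W, 0 ≤ n ∧ (n : ℝ) ≤ T ∧ HZ σ n := by
    intro n hn
    have : n ∈ heights A := by rw [← hW]; exact hn
    obtain ⟨ρ, hρ, hr1, hr2⟩ := this
    obtain ⟨a1, a2, a3, a4⟩ := hA hρ
    refine ⟨?_, by linarith, ρ, a1, a2, hr1.le, hr2⟩
    have : (-1 : ℝ) < (n : ℝ) := by linarith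
    have : (-1 : ℤ) < n := by exact_mod_cast this
    omega
  have hE := h1 T hT1 σ hσ1 hσ2 W hWprop
  obtain ⟨s, hs⟩ : ∃ s : ℝ, s = (W.card : ℝ) := ⟨_, rfl⟩
  have hs0 : 0 ≤ s := by rw [hs]; exact Nat.cast_nonneg _
  rw [← hs] at hE ⊢
  have hTε : T ^ (ε / 3) ≤ T ^ ε := Real.rpow_le_rpow_of_exponent_le hT1 (by linarith)
  have hRz := Rz_nonneg σ hs0 hT0.le
  have hX : 0 ≤ C2 * C3 * (2 * (3 * C1) ^ 2) := by positivity
  constructor
  · have e1 : s * Rz s T σ = s ^ 3 * T ^ (1 / 2 - σ) + s ^ 2 * T ^ (2 * (1 - σ)) +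
        s ^ (9 / 4 : ℝ) * T ^ (1 - σ) := by
      unfold Rz
      have : s ^ (9 / 4 : ℝ) = s * s ^ (5 / 4 : ℝ) := by
        rcases hs0.eq_or_lt with h | h
        · rw [← h, Real.zero_rpow (by norm_num), zero_mul]
        · nth_rewrite 2 [← Real.rpow_one s]
          rw [← Real.rpow_add h]; norm_num
      rw [this]; ring
    rw [← e1]
    calc ((W.addEnergy W : ℕ) : ℝ) ≤ C1 * T ^ (ε / 3) * (s * Rz s T σ) := hE
      _ ≤ _ := by gcongr; linarith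
  · intro K hK hKE
    have hs2 : s ≤ 2 * T := by
      have g1 : W ⊆ Finset.Icc 0 ⌊T⌋ := by
        intro n hn
        obtain ⟨b1, b2, -⟩ := hWprop n hn
        rw [Finset.mem_Icc]
        exact ⟨b1, Int.le_floor.2 b2⟩
      have g2 := Finset.card_le_card g1
      rw [Int.card_Icc] at g2
      have g3 : 0 ≤ ⌊T⌋ := Int.floor_nonneg.2 hT0.le
      have g4 : (W.card : ℤ) ≤ ⌊T⌋ + 1 := by omega
      have g5 : (W.card : ℝ) ≤ (⌊T⌋ : ℝ) + 1 := by exact_mod_cast g4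
      have g6 := Int.floor_le T
      rw [hs]; linarith
    have hcon := conclude (C := C1) (e := ε / 3) hT1 hs0 hs2 hK hC1 (by positivity) hσ2
      (hKE.trans (by gcongr))
    have hcnt := h2 T hT σ hσ1 A hA W (by rw [hW])
    rw [← hs] at hcnt
    have hlog := h3 T hT1
    have hlog0 : 0 ≤ Real.log T := Real.log_nonneg hT1
    have hY : 1 ≤ T ^ (2 * (1 - σ) + ε) := Real.one_le_rpow hT1 (by linarith)
    have hK2 : 1 ≤ K ^ 2 := one_le_pow₀ hK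
    have hexp : T ^ (2 * (1 - σ) + 2 * (ε / 3)) * T ^ (ε / 3) = T ^ (2 * (1 - σ) + ε) := by
      rw [← Real.rpow_add hT0]; ring_nf
    calc (count A : ℝ) ≤ C2 + s * (C2 * Real.log T) := hcnt
      _ ≤ C2 + (2 * (3 * (K * C1)) ^ 2 * T ^ (2 * (1 - σ) + 2 * (ε / 3))) *
            (C2 * (C3 * T ^ (ε / 3))) := by gcongr
      _ = C2 * 1 + C2 * C3 * (2 * (3 * C1) ^ 2) * K ^ 2 *
            (T ^ (2 * (1 - σ) + 2 * (ε / 3)) * T ^ (ε / 3)) := by ring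
      _ = C2 * 1 + C2 * C3 * (2 * (3 * C1) ^ 2) * K ^ 2 * T ^ (2 * (1 - σ) + ε) := by rw [hexp]
      _ ≤ C2 * (K ^ 2 * T ^ (2 * (1 - σ) + ε)) +
            C2 * C3 * (2 * (3 * C1) ^ 2) * K ^ 2 * T ^ (2 * (1 - σ) + ε) := by
          have : 1 ≤ K ^ 2 * T ^ (2 * (1 - σ) + ε) := by nlinarith
          gcongr
      _ ≤ _ := by
          have : 0 ≤ C1 * (K ^ 2 * T ^ (2 * (1 - σ) + ε)) := by positivity
          nlinarith

end Pool.Agent.Results.MP_4467b5_nt.EnergyOfZeros
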