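import Pool.Agent.Y24.F2
import Pool.Agent.Results.MP_4467b5_nt.IsolatedZeros
import Pool.Agent.X35.ZW.Ord

/-!
# Windows of heights around `α v_i` without zeros of the Riemann zeta function to the right of `Re s = σ`

The definitions `zeros`, `count` and `near` are those of the starting file `Pool.Agent.Results.MP_4467b5_nt.IsolatedZeros`.
-/

set_option autoImplicit false

namespace Pool.Agent.Results.MP_4467b5_nt.ZeroFreeWindows

open Set Complex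
open Pool.Agent.Results.MP_4467b5_nt.IsolatedZeros (count near zeros)

/-- Let `v_i ≥ 1` with `∑ v_i ^ (-t) < ∞` for all `t > τ` (`τ ≥ 0`; for example `v_i = 2 ^ i`, `τ = 0`) and `θ < 1`.
(1) For every `σ` in `[1 / 2, 1]` there is a set `E` of Hausdorff dimension at most `(1 - (4 / 3) (σ - 1 / 2) + τ) / (1 - θ)` such that for
every real `α > 0` outside `E` and all `i ≥ i₀` the Riemann zeta function has NO zero `ρ` with `Re ρ ≥ σ` and
`|Im ρ - α v_i| ≤ v_i ^ θ`. In particular, for `τ = 0` and `0 ≤ θ < (4 / 3) (σ - 1 / 2)` this is so for almost every `α`.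
(2) For all `ε, δ > 0` there is `η > 0` such that for every `σ` in `[1 / 2, 1]` there is a set `E` of the dimension
`(2 (1 - σ) + ε + τ) / (1 - θ)` which the density hypothesis would give for all zeros, such that for every real `α > 0` outside `E` and all
`i ≥ i₀` every zero `ρ` with `Re ρ ≥ σ` and `|Im ρ - α v_i| ≤ v_i ^ θ` lies in a dense cluster: the disc with centre `1 + i Im ρ`
and radius `1 - Re ρ + δ` contains more than `η log (Im ρ)` zeros. -/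
theorem result (v : ℕ → ℝ) (τ θ : ℝ) (hv1 : ∀ i, 1 ≤ v i) (hτ : 0 ≤ τ) (hθ : θ < 1)
    (hv : ∀ t : ℝ, τ < t → Summable (fun i => v i ^ (-t))) :
    (∀ σ : ℝ, 1 / 2 ≤ σ → σ ≤ 1 → ∃ E : Set ℝ, dimH E ≤ ENNReal.ofReal ((1 - 4 / 3 * (σ - 1 / 2) + τ) / (1 - θ)) ∧
      ∀ α : ℝ, 0 < α → α ∉ E → ∃ i₀ : ℕ, ∀ i : ℕ, i₀ ≤ i → ∀ ρ : ℂ, riemannZeta ρ = 0 → σ ≤ ρ.re → 0 < ρ.im →
        v i ^ θ < |ρ.im - α * v i|) ∧
    (∀ ε δ : ℝ, 0 < ε → 0 < δ → ∃ η : ℝ, 0 < η ∧ ∀ σ : ℝ, 1 / 2 ≤ σ → σ ≤ 1 →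
      ∃ E : Set ℝ, dimH E ≤ ENNReal.ofReal ((2 * (1 - σ) + ε + τ) / (1 - θ)) ∧
      ∀ α : ℝ, 0 < α → α ∉ E → ∃ i₀ : ℕ, ∀ i : ℕ, i₀ ≤ i → ∀ ρ : ℂ, riemannZeta ρ = 0 → σ ≤ ρ.re → 0 < ρ.im →
        |ρ.im - α * v i| ≤ v i ^ θ → η * Real.log ρ.im < (count (near δ ρ) : ℝ)) := by
  constructor
  · intro σ hσ1 hσ2
    obtain ⟨E, hE, h⟩ := Pool.Agent.X35.ZW.zero_windows {ρ : ℂ | riemannZeta ρ = 0 ∧ σ ≤ ρ.re ∧ 0 < ρ.im} (fun ρ hρ => hρ.2.2)
      (a := 1 - 4 / 3 * (σ - 1 / 2)) hv1 hτ hv (by linarith) hθ (by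
        intro ε hε
        -- the slope `c`
        obtain ⟨C, hC, h⟩ := Pool.Agent.Y24.density (c := 4 / 3 - ε) (by linarith)
        obtain ⟨T₁, hT₁⟩ := Filter.eventually_atTop.1 ((isLittleO_log_rpow_atTop (show 0 < ε / 2 by positivity)).bound (show (0 : ℝ) < 1 by norm_num))
        refine ⟨C, max 2 T₁, fun T hT => ?_⟩
        have hT2 : 2 ≤ T := (le_max_left _ _).trans hT
        have hTT₁ : T₁ ≤ T := (le_max_right _ _).trans hT
        have hT0 : 0 < T := by linarith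
        obtain ⟨h1, h2⟩ := h σ T hσ1 hσ2 hT2
        have e : {ρ : ℂ | ρ ∈ {ρ : ℂ | riemannZeta ρ = 0 ∧ σ ≤ ρ.re ∧ 0 < ρ.im} ∧ ρ.im ≤ T} = Pool.Agent.Y24.ZZ σ T := by
          ext ρ
          simp only [Pool.Agent.Y24.ZZ, mem_setOf_eq]
          tauto
        rw [e]
        refine ⟨h1, (Pool.Agent.X35.ZW.ncard_le h1 fun ρ hρ => hρ.1).trans (h2.trans ?_)⟩
        have hlog : Real.log T ≤ T ^ (ε / 2) := by
          have h3 := hT₁ T hTT₁
          rw [one_mul, Real.norm_eq_abs, Real.norm_eq_abs, abs_of_nonneg (Real.log_nonneg (by linarith)), abs_of_nonneg (by positivity)] at h3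
          exact h3
        calc C * T ^ (1 - (4 / 3 - ε) * (σ - 1 / 2)) * Real.log T ≤ C * T ^ (1 - (4 / 3 - ε) * (σ - 1 / 2)) * T ^ (ε / 2) :=
              mul_le_mul_of_nonneg_left hlog (by positivity)
          _ = C * T ^ (1 - (4 / 3 - ε) * (σ - 1 / 2) + ε / 2) := by rw [mul_assoc, ← Real.rpow_add hT0]
          _ ≤ C * T ^ (1 - 4 / 3 * (σ - 1 / 2) + ε) := by
              apply mul_le_mul_of_nonneg_left _ hC.le
              apply Real.rpow_le_rpow_of_exponent_le (by linarith)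
              nlinarith)
    refine ⟨E, hE, fun α hα hαE => ?_⟩
    obtain ⟨i₀, hi₀⟩ := h α hα hαE
    exact ⟨i₀, fun i hi ρ h1 h2 h3 => hi₀ i hi ρ ⟨h1, h2, h3⟩⟩
  · intro ε δ hε hδ
    obtain ⟨η, hη, C, hC, T₀, h⟩ := Pool.Agent.Results.MP_4467b5_nt.IsolatedZeros.result (ε / 2) δ (by positivity) hδ
    refine ⟨η, hη, fun σ hσ1 hσ2 => ?_⟩
    obtain ⟨E, hE, h'⟩ := Pool.Agent.X35.ZW.zero_windows
      {ρ : ℂ | riemannZeta ρ = 0 ∧ σ ≤ ρ.re ∧ 0 < ρ.im ∧ (count (near δ ρ) : ℝ) ≤ η * Real.log ρ.im} (fun ρ hρ => hρ.2.2.1)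
      (a := 2 * (1 - σ) + ε) hv1 hτ hv (by linarith) hθ (by
        intro ε' hε'
        refine ⟨C, max T₀ 1, fun T hT => ?_⟩
        have hTT₀ : T₀ ≤ T := (le_max_left _ _).trans hT
        have hT1 : 1 ≤ T := (le_max_right _ _).trans hT
        have h1 := h T hTT₀ σ hσ1 hσ2
        set A : Set ℂ := {ρ : ℂ | ρ ∈ zeros σ T ∧ (count (near δ ρ) : ℝ) ≤ η * Real.log T} with hA
        have hAfin : A.Finite := (Pool.Agent.Results.MP_4467b5_nt.IsolatedZeros.zeros_finite σ T).subset fun ρ hρ => hρ.1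
        have hsub : {ρ : ℂ | ρ ∈ {ρ : ℂ | riemannZeta ρ = 0 ∧ σ ≤ ρ.re ∧ 0 < ρ.im ∧ (count (near δ ρ) : ℝ) ≤ η * Real.log ρ.im} ∧ ρ.im ≤ T} ⊆ A := by
          rintro ρ ⟨⟨h2, h3, h4, h5⟩, h6⟩
          refine ⟨⟨h2, h3, h4, h6⟩, h5.trans ?_⟩
          exact mul_le_mul_of_nonneg_left (Real.log_le_log h4 h6) hη.le
        refine ⟨hAfin.subset hsub, ?_⟩
        have h2 : ({ρ : ℂ | ρ ∈ {ρ : ℂ | riemannZeta ρ = 0 ∧ σ ≤ ρ.re ∧ 0 < ρ.im ∧ (count (near δ ρ) : ℝ) ≤ η * Real.log ρ.im} ∧ ρ.im ≤ T}.ncard : ℝ) ≤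
            (A.ncard : ℝ) := by exact_mod_cast Set.ncard_le_ncard hsub hAfin
        have h3 := Pool.Agent.X35.ZW.ncard_le hAfin fun ρ hρ => hρ.1.1
        have h4 : ∑ᶠ ρ ∈ A, (analyticOrderNatAt riemannZeta ρ : ℝ) = (count A : ℝ) := by
          unfold Pool.Agent.Results.MP_4467b5_nt.IsolatedZeros.count
          rw [finsum_mem_eq_finite_toFinset_sum _ hAfin, finsum_mem_eq_finite_toFinset_sum _ hAfin]
          push_cast
          rfl
        rw [h4] at h3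
        refine h2.trans (h3.trans (h1.trans ?_))
        apply mul_le_mul_of_nonneg_left _ hC.le
        exact Real.rpow_le_rpow_of_exponent_le hT1 (by linarith))
    refine ⟨E, hE, fun α hα hαE => ?_⟩
    obtain ⟨i₀, hi₀⟩ := h' α hα hαE
    refine ⟨i₀, fun i hi ρ h1 h2 h3 h4 => ?_⟩
    by_contra hcon
    push Not at hcon
    exact absurd (hi₀ i hi ρ ⟨h1, h2, h3, hcon⟩) (not_lt.2 h4)

end Pool.Agent.Results.MP_4467b5_nt.ZeroFreeWindows
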