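import Pool.Agent.H31R2.DH.Assemble
import Pool.Agent.X108.ZE.HO

/-!
# The density hypothesis for the zeros near a set of small doubling

Let `P` be a set of integers in `[0, T]` which has a companion `X` with `|P + X| ≤ K |X|` (for instance a
generalised arithmetic progression or a set of small doubling, `X = P`). We bound the number of the
zeros of zeta with real part at least `σ` whose heights are near `P`. For `|X|` up to `T^(3/2-σ)` and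
`T^(4-4σ)` the bound is the one of the density hypothesis.
-/

set_option autoImplicit false

namespace Pool.Agent.Results.MP_4467b5_nt.ZerosNearStructuredSets

open Complex Pool.Agent.X108.ZE
open scoped Pointwise

/-- the zeros of zeta with real part at least `σ` and height in `(0, T]` which lies in `(n, n + 1]` for
some `n ∈ P` -/
def ZerosNear (σ T : ℝ) (P : Finset ℤ) : Set ℂ :=
  {s : ℂ | riemannZeta s = 0 ∧ σ ≤ s.re ∧ 0 < s.im ∧ s.im ≤ T ∧ ∃ n ∈ P, (n : ℝ) < s.im ∧ s.im ≤ n + 1}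

/-- the number of the elements of a set of zeros, counted with multiplicity -/
noncomputable def count (A : Set ℂ) : ℕ := ∑ᶠ s ∈ A, analyticOrderNatAt riemannZeta s

/-- the sets of zeros that are counted are finite -/
theorem zeros_finite (σ T : ℝ) (P : Finset ℤ) : (ZerosNear σ T P).Finite :=
  (DH31.zeros_finite σ T).subset fun _ h => ⟨h.1, h.2.1, h.2.2.1, h.2.2.2.1⟩

lemma to_count : ∃ C : ℝ, 1 ≤ C ∧ ∀ T : ℝ, 3 ≤ T → ∀ σ : ℝ, 1 / 2 ≤ σ → ∀ P W : Finset ℤ,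
    (∀ n ∈ P, 0 ≤ n) → (∀ s ∈ ZerosNear σ T P, ∀ n ∈ P, (n : ℝ) < s.im → s.im ≤ n + 1 → n ∈ W) →
    (count (ZerosNear σ T P) : ℝ) ≤ C + (W.card : ℝ) * (C * Real.log T) := by
  classical
  obtain ⟨C, hC, h⟩ := DH31.windows_to_count
  refine ⟨C + 1, by linarith, ?_⟩
  intro T hT σ hσ P W hP hW
  have h1 := h T hT (ZerosNear σ T P) (fun s hs => by
    obtain ⟨a1, a2, a3, a4, -⟩ := hs
    exact ⟨a1, hσ.trans a2, a3, a4⟩) (W.image Int.toNat) (by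
    intro ρ hρ h3
    obtain ⟨a1, a2, a3, a4, n, hn, hn1, hn2⟩ := hρ
    have hn0 := hP n hn
    refine ⟨n.toNat, Finset.mem_image_of_mem _
      (hW ρ ⟨a1, a2, a3, a4, n, hn, hn1, hn2⟩ n hn hn1 hn2), ?_⟩
    have hcast : ((n.toNat : ℕ) : ℝ) = (n : ℝ) := by
      have : ((n.toNat : ℕ) : ℤ) = n := Int.toNat_of_nonneg hn0
      exact_mod_cast this
    rw [hcast]
    exact ⟨hn1, hn2⟩)
  have hlog : 0 ≤ Real.log T := Real.log_nonneg (by linarith)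
  have h2 : (((W.image Int.toNat).card : ℕ) : ℝ) ≤ W.card := by exact_mod_cast Finset.card_image_le
  have h3 : (count (ZerosNear σ T P) : ℝ) = (DH31.cnt (ZerosNear σ T P) : ℝ) := rfl
  rw [h3]
  calc (DH31.cnt (ZerosNear σ T P) : ℝ) ≤ C + ((W.image Int.toNat).card : ℝ) * (C * Real.log T) := h1
    _ ≤ (C + 1) + (W.card : ℝ) * ((C + 1) * Real.log T) := by
        gcongr
        · linarith
        · linarith

/-- **Zeros near a set of small doubling.** -/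
theorem result (ε : ℝ) (hε : 0 < ε) : ∃ C : ℝ, ∀ T : ℝ, 3 ≤ T → ∀ σ : ℝ, 1 / 2 ≤ σ → σ ≤ 1 →
    ∀ (K : ℝ) (P X : Finset ℤ), 1 ≤ K → X.Nonempty → (∀ n ∈ P, 0 ≤ n ∧ (n : ℝ) ≤ T) →
      (∀ n ∈ X, 0 ≤ n ∧ (n : ℝ) ≤ T) → ((P + X).card : ℝ) ≤ K * X.card →
      (count (ZerosNear σ T P) : ℝ) ≤ C * K * T ^ ε * (T ^ (2 * (1 - σ)) +
        (X.card : ℝ) * T ^ (1 / 2 - σ) + (X.card : ℝ) ^ (1 / 4 : ℝ) * T ^ (1 - σ)) ∧
      ((X.card : ℝ) ≤ T ^ (3 / 2 - σ) → (X.card : ℝ) ≤ T ^ (4 * (1 - σ)) →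
        (count (ZerosNear σ T P) : ℝ) ≤ C * K * T ^ (2 * (1 - σ) + ε)) := by
  classical
  obtain ⟨C1, hC1, h1⟩ := host_zeros (ε := ε / 2) (by positivity)
  obtain ⟨C2, hC2, h2⟩ := to_count
  obtain ⟨C3, hC3, h3⟩ : ∃ C3 : ℝ, 1 ≤ C3 ∧ ∀ T : ℝ, 1 ≤ T → Real.log T ≤ C3 * T ^ (ε / 2) := by
    refine ⟨2 / ε + 1, by
      have : 0 < 2 / ε := by positivity
      linarith, fun T hT => ?_⟩
    have := Real.log_le_rpow_div (by linarith : 0 ≤ T) (show 0 < ε / 2 by positivity)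
    have h0 : 0 ≤ T ^ (ε / 2) := by positivity
    calc Real.log T ≤ T ^ (ε / 2) / (ε / 2) := this
      _ = 2 / ε * T ^ (ε / 2) := by field_simp
      _ ≤ _ := by gcongr; linarith
  refine ⟨3 * (C2 + C2 * C3 * C1), ?_⟩
  intro T hT σ hσ1 hσ2 K P X hK hX hP hXT hPX
  have hT1 : 1 ≤ T := by linarith
  have hT0 : 0 < T := by linarith
  obtain ⟨W, hWdef⟩ : ∃ W : Finset ℤ, W = P.filter (fun n => HZ σ n) := ⟨_, rfl⟩
  have hhost := h1 T hT1 σ hσ1 hσ2 P X W hX hP hXT (by rw [hWdef]; exact Finset.filter_subset _ _)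
    (fun n hn => by rw [hWdef, Finset.mem_filter] at hn; exact hn.2)
  have hcnt := h2 T hT σ hσ1 P W (fun n hn => (hP n hn).1) (by
    intro s hs n hn hs1 hs2
    rw [hWdef, Finset.mem_filter]
    exact ⟨hn, s, hs.1, hs.2.1, hs1.le, hs2⟩)
  obtain ⟨s, hs⟩ : ∃ s : ℝ, s = (X.card : ℝ) := ⟨_, rfl⟩
  obtain ⟨r, hr⟩ : ∃ r : ℝ, r = ((P + X).card : ℝ) := ⟨_, rfl⟩
  obtain ⟨w, hw⟩ : ∃ w : ℝ, w = (W.card : ℝ) := ⟨_, rfl⟩
  rw [← hs, ← hr, ← hw] at hhost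
  rw [← hr, ← hs] at hPX
  rw [← hw] at hcnt
  rw [← hs]
  have hs1 : 1 ≤ s := by rw [hs]; exact_mod_cast hX.card_pos
  have hs0 : 0 < s := by linarith
  have hr0 : 0 ≤ r := by rw [hr]; exact Nat.cast_nonneg _
  have hRs := Rz_nonneg σ hs0.le hT0.le
  -- the bound for the sumset
  have hRr : Rz r T σ ≤ K ^ 2 * Rz s T σ := by
    unfold Rz
    have hK2 : K ≤ K ^ 2 := by nlinarith
    have g1 : r ^ 2 * T ^ (1 / 2 - σ) ≤ K ^ 2 * (s ^ 2 * T ^ (1 / 2 - σ)) := by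
      calc r ^ 2 * T ^ (1 / 2 - σ) ≤ (K * s) ^ 2 * T ^ (1 / 2 - σ) := by gcongr
        _ = _ := by ring
    have g2 : r * T ^ (2 * (1 - σ)) ≤ K ^ 2 * (s * T ^ (2 * (1 - σ))) := by
      calc r * T ^ (2 * (1 - σ)) ≤ (K * s) * T ^ (2 * (1 - σ)) := by gcongr
        _ = K * (s * T ^ (2 * (1 - σ))) := by ring
        _ ≤ _ := by gcongr
    have g3 : r ^ (5 / 4 : ℝ) * T ^ (1 - σ) ≤ K ^ 2 * (s ^ (5 / 4 : ℝ) * T ^ (1 - σ)) := by
      have e1 : K ^ (5 / 4 : ℝ) ≤ K ^ 2 := by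
        rw [← Real.rpow_two]
        exact Real.rpow_le_rpow_of_exponent_le hK (by norm_num)
      calc r ^ (5 / 4 : ℝ) * T ^ (1 - σ) ≤ (K * s) ^ (5 / 4 : ℝ) * T ^ (1 - σ) := by gcongr
        _ = K ^ (5 / 4 : ℝ) * s ^ (5 / 4 : ℝ) * T ^ (1 - σ) := by
            rw [Real.mul_rpow (by linarith) hs0.le]
        _ ≤ K ^ 2 * s ^ (5 / 4 : ℝ) * T ^ (1 - σ) := by gcongr
        _ = _ := by ring
    linarith
  have hsqrt : Real.sqrt (Rz s T σ) * Real.sqrt (Rz r T σ) ≤ K * Rz s T σ := by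
    rw [← Real.sqrt_mul hRs]
    apply Real.sqrt_le_iff.2
    refine ⟨by positivity, ?_⟩
    calc Rz s T σ * Rz r T σ ≤ Rz s T σ * (K ^ 2 * Rz s T σ) := by gcongr
      _ = _ := by ring
  obtain ⟨Y, hY⟩ : ∃ Y : ℝ, Y = T ^ (2 * (1 - σ)) + s * T ^ (1 / 2 - σ) +
    s ^ (1 / 4 : ℝ) * T ^ (1 - σ) := ⟨_, rfl⟩
  have hY0 : 0 ≤ Y := by rw [hY]; positivity
  have hRY : Rz s T σ = s * Y := by
    unfold Rz
    rw [hY]
    have : s ^ (5 / 4 : ℝ) = s * s ^ (1 / 4 : ℝ) := by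
      nth_rewrite 2 [← Real.rpow_one s]
      rw [← Real.rpow_add hs0]; norm_num
    rw [this]; ring
  have hwY : w ≤ C1 * K * T ^ (ε / 2) * Y := by
    have e1 : s * w ≤ s * (C1 * K * T ^ (ε / 2) * Y) := by
      calc s * w = w * s := by ring
        _ ≤ C1 * T ^ (ε / 2) * (Real.sqrt (Rz s T σ) * Real.sqrt (Rz r T σ)) := hhost
        _ ≤ C1 * T ^ (ε / 2) * (K * Rz s T σ) := by gcongr
        _ = _ := by rw [hRY]; ring
    exact le_of_mul_le_mul_left e1 hs0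
  have hlog := h3 T hT1
  have hlog0 : 0 ≤ Real.log T := Real.log_nonneg hT1
  have hY1 : 1 ≤ Y := by
    rw [hY]
    have g1 : 1 ≤ T ^ (2 * (1 - σ)) := Real.one_le_rpow hT1 (by linarith)
    have g2 : 0 ≤ s * T ^ (1 / 2 - σ) := by positivity
    have g3 : 0 ≤ s ^ (1 / 4 : ℝ) * T ^ (1 - σ) := by positivity
    linarith
  have hTε : 1 ≤ T ^ ε := Real.one_le_rpow hT1 hε.le
  have hexp : T ^ (ε / 2) * T ^ (ε / 2) = T ^ ε := by
    rw [← Real.rpow_add hT0, add_halves]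
  have hmain : (count (ZerosNear σ T P) : ℝ) ≤ (C2 + C2 * C3 * C1) * K * T ^ ε * Y := by
    have hKTY : 1 ≤ K * T ^ ε * Y := by
      have : 1 ≤ K * T ^ ε := by nlinarith
      nlinarith
    calc (count (ZerosNear σ T P) : ℝ) ≤ C2 + w * (C2 * Real.log T) := hcnt
      _ ≤ C2 + (C1 * K * T ^ (ε / 2) * Y) * (C2 * (C3 * T ^ (ε / 2))) := by gcongr
      _ = C2 * 1 + C2 * C3 * C1 * K * (T ^ (ε / 2) * T ^ (ε / 2)) * Y := by ring
      _ = C2 * 1 + C2 * C3 * C1 * K * T ^ ε * Y := by rw [hexp]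
      _ ≤ C2 * (K * T ^ ε * Y) + C2 * C3 * C1 * K * T ^ ε * Y := by gcongr
      _ = _ := by ring
  have hB0 : 0 ≤ C2 + C2 * C3 * C1 := by positivity
  constructor
  · calc (count (ZerosNear σ T P) : ℝ) ≤ (C2 + C2 * C3 * C1) * K * T ^ ε * Y := hmain
      _ ≤ 3 * (C2 + C2 * C3 * C1) * K * T ^ ε * Y := by
          gcongr
          linarith
      _ = _ := by rw [hY]
  · intro hs2 hs3
    have hY3 : Y ≤ 3 * T ^ (2 * (1 - σ)) := by
      have g1 : s * T ^ (1 / 2 - σ) ≤ T ^ (2 * (1 - σ)) := by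
        calc s * T ^ (1 / 2 - σ) ≤ T ^ (3 / 2 - σ) * T ^ (1 / 2 - σ) := by gcongr
          _ = _ := by rw [← Real.rpow_add hT0]; ring_nf
      have g2 : s ^ (1 / 4 : ℝ) * T ^ (1 - σ) ≤ T ^ (2 * (1 - σ)) := by
        calc s ^ (1 / 4 : ℝ) * T ^ (1 - σ) ≤ (T ^ (4 * (1 - σ))) ^ (1 / 4 : ℝ) * T ^ (1 - σ) := by
              gcongr
          _ = _ := by
              rw [← Real.rpow_mul hT0.le, ← Real.rpow_add hT0]; ring_nf
      rw [hY]; linarith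
    calc (count (ZerosNear σ T P) : ℝ) ≤ (C2 + C2 * C3 * C1) * K * T ^ ε * Y := hmain
      _ ≤ (C2 + C2 * C3 * C1) * K * T ^ ε * (3 * T ^ (2 * (1 - σ))) := by gcongr
      _ = 3 * (C2 + C2 * C3 * C1) * K * (T ^ (2 * (1 - σ)) * T ^ ε) := by ring
      _ = _ := by rw [← Real.rpow_add hT0]

end Pool.Agent.Results.MP_4467b5_nt.ZerosNearStructuredSets
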